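import Mathlib

set_option autoImplicit false

namespace Pool.Agent.Results.MP_89b4a2_co.Full

open Finset

/-! ### Definitions used by the statement -/

/-- The q-Pochhammer symbol `(x; q)_n = ∏_{j < n} (1 - x q ^ j)` in a commutative ring. -/
def qPoch {K : Type*} [CommRing K] (q x : K) (n : ℕ) : K :=
  ∏ j ∈ Finset.range n, (1 - x * q ^ j)

/-- The basic hypergeometric series `₂φ₁(a, b; c; q, z)` as a power series in `z`. -/
noncomputable def phi {K : Type*} [Field K] (q a b c : K) : PowerSeries K :=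
  PowerSeries.mk fun n => qPoch q a n * qPoch q b n / (qPoch q q n * qPoch q c n)

/-- The field `ℚ(a, b, c, q)`, as the fraction field of `ℤ[a, b, c, q]`. -/
abbrev QF : Type := FractionRing (MvPolynomial (Fin 4) ℤ)

/-- The indeterminate `a`. -/
noncomputable def a : QF := algebraMap (MvPolynomial (Fin 4) ℤ) QF (MvPolynomial.X 0)
/-- The indeterminate `b`. -/
noncomputable def b : QF := algebraMap (MvPolynomial (Fin 4) ℤ) QF (MvPolynomial.X 1)
/-- The indeterminate `c`. -/
noncomputable def c : QF := algebraMap (MvPolynomial (Fin 4) ℤ) QF (MvPolynomial.X 2)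
/-- The indeterminate `q`. -/
noncomputable def q : QF := algebraMap (MvPolynomial (Fin 4) ℤ) QF (MvPolynomial.X 3)

/-- `γ'_n`, the coefficient of `z ^ n` in `₂φ₁(aq, b; cq; q, z) / ₂φ₁(a, b; c; q, z)`. -/
noncomputable def gamma' (n : ℕ) : QF :=
  PowerSeries.coeff n (phi q (a * q) b (c * q) * (phi q a b c)⁻¹)

/-- `D_n = ∏_{k=0}^n (1 - c q ^ k) ^ ⌊(n+1)/(k+1)⌋`. -/
noncomputable def D (n : ℕ) : QF :=
  ∏ k ∈ Finset.range (n + 1), (1 - c * q ^ k) ^ ((n + 1) / (k + 1))

/-! ### Elements of a field with denominators in a given submonoid -/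

section general

variable {P K : Type*} [CommRing P] [Field K] [Algebra P K]

/-- Elements `x` of `K` with `x w ∈ P` for some `w ∈ M`. -/
def loc (K : Type*) [Field K] [Algebra P K] (M : Submonoid P) : Subring K where
  carrier := {x | ∃ w ∈ M, ∃ p : P, x * algebraMap P K w = algebraMap P K p}
  mul_mem' := by
    rintro x y ⟨w, hw, p, hp⟩ ⟨w', hw', p', hp'⟩
    refine ⟨w * w', M.mul_mem hw hw', p * p', ?_⟩
    rw [map_mul, map_mul, ← hp, ← hp']; ring
  one_mem' := ⟨1, M.one_mem, 1, by simp⟩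
  add_mem' := by
    rintro x y ⟨w, hw, p, hp⟩ ⟨w', hw', p', hp'⟩
    refine ⟨w * w', M.mul_mem hw hw', p * w' + p' * w, ?_⟩
    rw [map_mul, map_add, map_mul, map_mul, ← hp, ← hp']; ring
  zero_mem' := ⟨1, M.one_mem, 0, by simp⟩
  neg_mem' := by
    rintro x ⟨w, hw, p, hp⟩
    refine ⟨w, hw, -p, ?_⟩
    rw [map_neg, ← hp]; ring

lemma mem_loc {M : Submonoid P} {x : K} :
    x ∈ loc K M ↔ ∃ w ∈ M, ∃ p : P, x * algebraMap P K w = algebraMap P K p := Iff.rfl

lemma algebraMap_mem_loc (M : Submonoid P) (p : P) : algebraMap P K p ∈ loc K M :=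
  ⟨1, M.one_mem, p, by simp⟩

lemma inv_mem_loc (M : Submonoid P) {w : P} (hw : w ∈ M) (h0 : algebraMap P K w ≠ 0) :
    (algebraMap P K w)⁻¹ ∈ loc K M :=
  ⟨w, hw, 1, by rw [inv_mul_cancel₀ h0]; simp⟩

/-- If denominators from `U` are coprime to denominators from `W` then an element having both
kinds of denominators has none. -/
lemma mem_range_of_mem_loc (hinj : Function.Injective (algebraMap P K)) (U W : Submonoid P)
    (hW0 : ∀ w ∈ W, w ≠ 0)
    (H : ∀ w ∈ W, ∀ u ∈ U, ∀ r : P, w ∣ r * u → w ∣ r) {x : K}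
    (hU : x ∈ loc K U) (hW : x ∈ loc K W) : ∃ p : P, x = algebraMap P K p := by
  obtain ⟨u, hu, p, hp⟩ := hU
  obtain ⟨w, hw, r, hr⟩ := hW
  have h1 : w * p = r * u := by
    apply hinj
    rw [map_mul, map_mul, ← hp, ← hr]; ring
  obtain ⟨s, hs⟩ := H w hw u hu r ⟨p, h1.symm⟩
  refine ⟨s, ?_⟩
  have hw0 : algebraMap P K w ≠ 0 := by
    intro h
    exact hW0 w hw (hinj (by rw [h, map_zero]))
  have h2 : x * algebraMap P K w = algebraMap P K s * algebraMap P K w := by
    rw [hr, hs, map_mul]; ring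
  exact mul_right_cancel₀ hw0 h2

end general

/-! ### Facts on the series -/

section series

variable {K : Type*} [Field K]

lemma qPoch_zero (q x : K) : qPoch q x 0 = 1 := by simp [qPoch]

lemma qPoch_succ (q x : K) (n : ℕ) : qPoch q x (n + 1) = qPoch q x n * (1 - x * q ^ n) := by
  simp [qPoch, Finset.prod_range_succ]

lemma qPoch_succ' (q x : K) (n : ℕ) : qPoch q x (n + 1) = (1 - x) * qPoch q (x * q) n := by
  unfold qPoch
  rw [Finset.prod_range_succ', mul_comm]
  congr 1
  · simp
  · refine Finset.prod_congr rfl ?_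
    intro j _
    rw [pow_succ]; ring

lemma phi_symm (q a b c : K) : phi q a b c = phi q b a c := by
  unfold phi
  congr 1
  funext n
  rw [mul_comm (qPoch q a n)]

lemma constCoeff_phi (q a b c : K) : PowerSeries.constantCoeff (phi q a b c) = 1 := by
  rw [← PowerSeries.coeff_zero_eq_constantCoeff_apply]
  simp [phi, qPoch_zero]

lemma phi_mul_inv (q a b c : K) : phi q a b c * (phi q a b c)⁻¹ = 1 := by
  refine PowerSeries.mul_inv_cancel _ ?_
  rw [constCoeff_phi]; exact one_ne_zero

lemma heine_aux (a b c q u A B Q C : K) (hQ : Q ≠ 0) (hC : C ≠ 0) (hu : 1 - u ≠ 0)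
    (hcu : 1 - c * u ≠ 0) (hc : 1 - c ≠ 0) (hcq : 1 - c * q ≠ 0) :
    A * (1 - a * u) * ((1 - b) * B) / (Q * (1 - u) * (C * (1 - c * u))) =
      (1 - a) * A * ((1 - b) * B) / (Q * (1 - u) * ((1 - c) * C)) +
      (1 - b) * (a - c) / ((1 - c) * (1 - c * q)) *
        (A * B / (Q * (C * (1 - c * u) / (1 - c * q)))) := by
  have h1 : A * B / (Q * (C * (1 - c * u) / (1 - c * q))) =
      (1 - c * q) * (A * B / (Q * (C * (1 - c * u)))) := by
    rw [mul_div_assoc', ← mul_assoc, div_div_eq_mul_div]; ring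
  have h2 : (1 - b) * (a - c) / ((1 - c) * (1 - c * q)) *
        ((1 - c * q) * (A * B / (Q * (C * (1 - c * u))))) =
      (1 - b) * (a - c) * (A * B) / ((1 - c) * (Q * (C * (1 - c * u)))) := by
    field_simp
  have n1 : Q * (1 - u) * ((1 - c) * C) ≠ 0 :=
    mul_ne_zero (mul_ne_zero hQ hu) (mul_ne_zero hc hC)
  have n2 : (1 - c) * (Q * (C * (1 - c * u))) ≠ 0 :=
    mul_ne_zero hc (mul_ne_zero hQ (mul_ne_zero hC hcu))
  have n3 : Q * (1 - u) * (C * (1 - c * u)) ≠ 0 :=
    mul_ne_zero (mul_ne_zero hQ hu) (mul_ne_zero hC hcu)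
  rw [h1, h2, div_add_div _ _ n1 n2, div_eq_div_iff n3 (mul_ne_zero n1 n2)]
  ring

/-- Heine's contiguous relation. -/
lemma heine (q a b c : K) (hq : ∀ n : ℕ, 1 - q * q ^ n ≠ 0) (hc : ∀ n : ℕ, 1 - c * q ^ n ≠ 0) :
    phi q (a * q) b (c * q) = phi q a b c +
      PowerSeries.C ((1 - b) * (a - c) / ((1 - c) * (1 - c * q))) *
        (PowerSeries.X * phi q (a * q) (b * q) (c * q * q)) := by
  have hP : ∀ n : ℕ, qPoch q q n ≠ 0 := fun n => Finset.prod_ne_zero_iff.2 (fun j _ => hq j)
  have hP1 : ∀ n : ℕ, qPoch q (c * q) n ≠ 0 := fun n => Finset.prod_ne_zero_iff.2 (fun j _ => by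
    have := hc (j + 1); rw [pow_succ] at this
    intro h; apply this; rw [← h]; ring)
  have hP2 : ∀ n : ℕ, qPoch q (c * q * q) n ≠ 0 := fun n => Finset.prod_ne_zero_iff.2 (fun j _ => by
    have := hc (j + 2); rw [pow_succ, pow_succ] at this
    intro h; apply this; rw [← h]; ring)
  have hc0 : 1 - c ≠ 0 := by simpa using hc 0
  have hc1 : 1 - c * q ≠ 0 := by simpa using hc 1
  ext n
  rw [map_add, PowerSeries.coeff_C_mul]
  cases n with
  | zero =>
    rw [PowerSeries.coeff_zero_X_mul]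
    simp [phi, qPoch_zero]
  | succ n =>
    rw [PowerSeries.coeff_succ_X_mul]
    simp only [phi, PowerSeries.coeff_mk]
    have e1 : qPoch q (a * q) (n + 1) = qPoch q (a * q) n * (1 - a * q ^ (n + 1)) := by
      rw [qPoch_succ]; ring
    have e2 : qPoch q a (n + 1) = (1 - a) * qPoch q (a * q) n := qPoch_succ' q a n
    have e3 : qPoch q b (n + 1) = (1 - b) * qPoch q (b * q) n := qPoch_succ' q b n
    have e4 : qPoch q (c * q) (n + 1) = qPoch q (c * q) n * (1 - c * q ^ (n + 1)) := by
      rw [qPoch_succ]; ring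
    have e5 : qPoch q c (n + 1) = (1 - c) * qPoch q (c * q) n := qPoch_succ' q c n
    have e6 : qPoch q q (n + 1) = qPoch q q n * (1 - q ^ (n + 1)) := by
      rw [qPoch_succ]; ring
    have e7 : (1 - c * q) * qPoch q (c * q * q) n = qPoch q (c * q) n * (1 - c * q ^ (n + 1)) := by
      rw [← e4, ← qPoch_succ']
    have hq1 : (1 - q ^ (n + 1)) ≠ 0 := by
      have := hq n
      intro h; apply this; rw [← h]; ring
    have hcn : 1 - c * q ^ (n + 1) ≠ 0 := hc (n + 1)
    have e8 : qPoch q (c * q * q) n = qPoch q (c * q) n * (1 - c * q ^ (n + 1)) / (1 - c * q) := by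
      rw [← e7]; field_simp
    rw [e1, e2, e3, e4, e5, e6, e8]
    exact heine_aux a b c q (q ^ (n + 1)) _ _ _ _ (hP n) (hP1 n) hq1 hcn hc0 hc1

end series

/-! ### The coefficients have denominators in `(1 - c q ^ k)` only -/

section cfrac

variable {P K : Type*} [CommRing P] [Field K] [Algebra P K]

/-- The ratio of the two series is integral away from the elements `1 - c q ^ k`: this is read off
from Heine's recurrence. -/
lemma coeff_ratio_mem (q c : P) (U : Submonoid P) (hU : ∀ k : ℕ, 1 - c * q ^ k ∈ U)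
    (hq : ∀ n : ℕ, 1 - algebraMap P K q * algebraMap P K q ^ n ≠ 0)
    (hc : ∀ n : ℕ, 1 - algebraMap P K c * algebraMap P K q ^ n ≠ 0) (n : ℕ) :
    ∀ (α β : P) (k : ℕ), PowerSeries.coeff n
      (phi (algebraMap P K q) (algebraMap P K α * algebraMap P K q) (algebraMap P K β)
        (algebraMap P K c * algebraMap P K q ^ k * algebraMap P K q) *
        (phi (algebraMap P K q) (algebraMap P K α) (algebraMap P K β)
          (algebraMap P K c * algebraMap P K q ^ k))⁻¹) ∈ loc K U := by
  induction n using Nat.strong_induction_on with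
  | _ n ih =>
  intro α β k
  set Q := algebraMap P K q with hQ
  set A := algebraMap P K α with hA
  set B := algebraMap P K β with hB
  set C := algebraMap P K c * Q ^ k with hC
  have hC' : ∀ n : ℕ, 1 - C * Q ^ n ≠ 0 := by
    intro n
    have h := hc (k + n)
    rw [pow_add, ← mul_assoc] at h
    exact h
  have hC'' : ∀ n : ℕ, 1 - C * Q * Q ^ n ≠ 0 := by
    intro n
    have h := hC' (n + 1)
    rw [pow_succ] at h
    intro h2; apply h; rw [← h2]; ring
  set F0 := phi Q A B C with hF0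
  set F1 := phi Q (A * Q) B (C * Q) with hF1
  set F2 := phi Q (A * Q) (B * Q) (C * Q * Q) with hF2
  set lam := (1 - B) * (A - C) / ((1 - C) * (1 - C * Q)) with hlam
  have heq : F1 = F0 + PowerSeries.C lam * (PowerSeries.X * F2) := heine Q A B C hq hC'
  have hi0 : F0 * F0⁻¹ = 1 := phi_mul_inv _ _ _ _
  have hi1 : F1 * F1⁻¹ = 1 := phi_mul_inv _ _ _ _
  have hrec : F1 * F0⁻¹ = 1 + PowerSeries.C lam * (PowerSeries.X * ((F2 * F1⁻¹) * (F1 * F0⁻¹))) := by
    calc F1 * F0⁻¹ = (F0 + PowerSeries.C lam * (PowerSeries.X * F2)) * F0⁻¹ := by rw [← heq]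
      _ = F0 * F0⁻¹ + PowerSeries.C lam * (PowerSeries.X * (F2 * (1 : PowerSeries K) * F0⁻¹)) := by
          ring
      _ = 1 + PowerSeries.C lam * (PowerSeries.X * (F2 * (F1 * F1⁻¹) * F0⁻¹)) := by
          rw [hi0, hi1]
      _ = _ := by ring
  have hlam_mem : lam ∈ loc K U := by
    have h1 : (1 - C)⁻¹ ∈ loc K U := by
      have h := inv_mem_loc (K := K) U (hU k) (by
        have := hC' 0
        simpa [hC] using this)
      simpa [hC] using h
    have h2 : (1 - C * Q)⁻¹ ∈ loc K U := by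
      have h := inv_mem_loc (K := K) U (hU (k + 1)) (by
        have := hC' 1
        simpa [hC, pow_succ, mul_assoc] using this)
      simpa [hC, pow_succ, mul_assoc] using h
    have h3 : (1 - B) * (A - C) ∈ loc K U := by
      have h := algebraMap_mem_loc (K := K) U ((1 - β) * (α - c * q ^ k))
      simpa [hC] using h
    have h4 : lam = (1 - B) * (A - C) * ((1 - C)⁻¹ * (1 - C * Q)⁻¹) := by
      rw [hlam, div_eq_mul_inv, mul_inv]
    rw [h4]
    exact (loc K U).mul_mem h3 ((loc K U).mul_mem h1 h2)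
  cases n with
  | zero =>
    rw [hrec, map_add, PowerSeries.coeff_C_mul, PowerSeries.coeff_zero_X_mul]
    simp
  | succ n =>
    rw [hrec, map_add, PowerSeries.coeff_C_mul, PowerSeries.coeff_succ_X_mul,
      PowerSeries.coeff_mul]
    have h1 : PowerSeries.coeff (n + 1) (1 : PowerSeries K) = 0 := by
      rw [PowerSeries.coeff_one]; simp
    rw [h1, zero_add]
    refine (loc K U).mul_mem hlam_mem ((loc K U).sum_mem ?_)
    intro x hx
    have hx' := Finset.HasAntidiagonal.mem_antidiagonal.1 hx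
    refine (loc K U).mul_mem ?_ (ih x.2 (by omega) α β k)
    have h2 := ih x.1 (by omega) β (α * q) (k + 1)
    have e1 : F2 = phi Q (B * Q) (algebraMap P K (α * q)) (algebraMap P K c * Q ^ (k + 1) * Q) := by
      rw [hF2, phi_symm, map_mul, ← hA, ← hQ, hC, pow_succ, mul_assoc _ (Q ^ k)]
    have e2 : F1 = phi Q B (algebraMap P K (α * q)) (algebraMap P K c * Q ^ (k + 1)) := by
      rw [hF1, phi_symm, map_mul, ← hA, ← hQ, hC, pow_succ, mul_assoc _ (Q ^ k)]
    rw [e1, e2]
    exact h2

end cfrac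

/-! ### The coefficients times `D_n / (1 - c)` have denominators in `(1 - q ^ j)` only -/

section expand

variable {P K : Type*} [CommRing P] [Field K] [Algebra P K]

/-- `∏_{k < N} (1 - c q ^ k) ^ (s k)`. -/
def EE (q c : K) (N : ℕ) (s : ℕ → ℕ) : K := ∏ k ∈ Finset.range N, (1 - c * q ^ k) ^ s k

lemma EE_add (q c : K) (N : ℕ) (s t : ℕ → ℕ) :
    EE q c N (fun k => s k + t k) = EE q c N s * EE q c N t := by
  unfold EE
  rw [← Finset.prod_mul_distrib]
  refine Finset.prod_congr rfl ?_
  intro k _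
  rw [pow_add]

lemma EE_le (q c : P) (N : ℕ) (s t : ℕ → ℕ) (h : ∀ k, s k ≤ t k) :
    ∃ p : P, EE (algebraMap P K q) (algebraMap P K c) N t =
      EE (algebraMap P K q) (algebraMap P K c) N s * algebraMap P K p := by
  refine ⟨∏ k ∈ Finset.range N, (1 - c * q ^ k) ^ (t k - s k), ?_⟩
  unfold EE
  rw [map_prod, ← Finset.prod_mul_distrib]
  refine Finset.prod_congr rfl ?_
  intro k _
  simp only [map_pow, map_sub, map_one, map_mul]
  rw [← pow_add, Nat.add_sub_cancel' (h k)]

lemma qPoch_eq_EE (q c : K) (N n : ℕ) (hn : n ≤ N) :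
    qPoch q c n = EE q c N (fun k => if k < n then 1 else 0) := by
  unfold qPoch EE
  rw [← Finset.prod_subset (s₁ := Finset.range n) (s₂ := Finset.range N)]
  · refine Finset.prod_congr rfl ?_
    intro k hk
    beta_reduce
    rw [if_pos (Finset.mem_range.1 hk), pow_one]
  · intro k hk
    rw [Finset.mem_range] at *
    omega
  · intro k _ hk
    rw [Finset.mem_range] at hk
    beta_reduce
    rw [if_neg hk, pow_zero]

lemma qPoch_mem (q x : P) (M : Submonoid P) (n : ℕ) :
    qPoch (algebraMap P K q) (algebraMap P K x) n ∈ loc K M := by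
  have h : qPoch (algebraMap P K q) (algebraMap P K x) n = algebraMap P K (qPoch q x n) := by
    unfold qPoch
    rw [map_prod]
    refine Finset.prod_congr rfl ?_
    intro j _
    simp
  rw [h]
  exact algebraMap_mem_loc M _

lemma inv_qPoch_mem (q : P) (W : Submonoid P) (hW : ∀ k : ℕ, 1 - q * q ^ k ∈ W)
    (hq : ∀ n : ℕ, 1 - algebraMap P K q * algebraMap P K q ^ n ≠ 0) (n : ℕ) :
    (qPoch (algebraMap P K q) (algebraMap P K q) n)⁻¹ ∈ loc K W := by
  unfold qPoch
  rw [← Finset.prod_inv_distrib]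
  refine (loc K W).prod_mem ?_
  intro j _
  have h := inv_mem_loc (K := K) W (hW j) (by simpa using hq j)
  simpa using h

/-- Coefficients of `₂φ₁`. -/
lemma coeff_phi_mem (q a b c : P) (W : Submonoid P) (hW : ∀ k : ℕ, 1 - q * q ^ k ∈ W)
    (hq : ∀ n : ℕ, 1 - algebraMap P K q * algebraMap P K q ^ n ≠ 0)
    (hc : ∀ n : ℕ, 1 - algebraMap P K c * algebraMap P K q ^ n ≠ 0) (N n : ℕ) (hn : n ≤ N) :
    PowerSeries.coeff n (phi (algebraMap P K q) (algebraMap P K a) (algebraMap P K b)
      (algebraMap P K c)) * EE (algebraMap P K q) (algebraMap P K c) N (fun k => n / (k + 1)) ∈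
      loc K W := by
  obtain ⟨p, hp⟩ := EE_le (K := K) q c N (fun k => if k < n then 1 else 0) (fun k => n / (k + 1))
    (by
      intro k
      by_cases h : k < n
      · simp only [h, if_true]
        exact (Nat.one_le_div_iff (Nat.succ_pos k)).2 h
      · simp [h])
  rw [hp, ← qPoch_eq_EE _ _ _ _ hn]
  have hne : qPoch (algebraMap P K q) (algebraMap P K c) n ≠ 0 :=
    Finset.prod_ne_zero_iff.2 (fun j _ => hc j)
  have heq : PowerSeries.coeff n (phi (algebraMap P K q) (algebraMap P K a) (algebraMap P K b)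
      (algebraMap P K c)) * (qPoch (algebraMap P K q) (algebraMap P K c) n * algebraMap P K p) =
      qPoch (algebraMap P K q) (algebraMap P K a) n * qPoch (algebraMap P K q) (algebraMap P K b) n *
      (qPoch (algebraMap P K q) (algebraMap P K q) n)⁻¹ * algebraMap P K p := by
    simp only [phi, PowerSeries.coeff_mk]
    rw [div_eq_mul_inv, mul_inv]
    field_simp
  rw [heq]
  exact (loc K W).mul_mem ((loc K W).mul_mem ((loc K W).mul_mem (qPoch_mem q a W n)
    (qPoch_mem q b W n)) (inv_qPoch_mem q W hW hq n)) (algebraMap_mem_loc W p)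

/-- Coefficients of the inverse of `₂φ₁`. -/
lemma coeff_inv_phi_mem (q a b c : P) (W : Submonoid P) (hW : ∀ k : ℕ, 1 - q * q ^ k ∈ W)
    (hq : ∀ n : ℕ, 1 - algebraMap P K q * algebraMap P K q ^ n ≠ 0)
    (hc : ∀ n : ℕ, 1 - algebraMap P K c * algebraMap P K q ^ n ≠ 0) (N n : ℕ) :
    n ≤ N → PowerSeries.coeff n (phi (algebraMap P K q) (algebraMap P K a) (algebraMap P K b)
      (algebraMap P K c))⁻¹ * EE (algebraMap P K q) (algebraMap P K c) N (fun k => n / (k + 1)) ∈
      loc K W := by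
  induction n using Nat.strong_induction_on with
  | _ n ih =>
  intro hn
  rw [PowerSeries.coeff_inv]
  split_ifs with h0
  · subst h0
    rw [constCoeff_phi]
    simp only [Nat.zero_div, inv_one, one_mul]
    have : EE (algebraMap P K q) (algebraMap P K c) N (fun _ => 0) = 1 := by
      simp [EE]
    rw [this]
    exact (loc K W).one_mem
  · rw [constCoeff_phi, inv_one, neg_mul, one_mul, neg_mul, Finset.sum_mul]
    refine (loc K W).neg_mem ((loc K W).sum_mem ?_)
    intro x hx
    have hx' := Finset.HasAntidiagonal.mem_antidiagonal.1 hx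
    split_ifs with hlt
    · obtain ⟨p, hp⟩ := EE_le (K := K) q c N (fun k => x.1 / (k + 1) + x.2 / (k + 1))
        (fun k => n / (k + 1)) (by
          intro k
          rw [← hx']
          exact Nat.div_add_div_le_add_div)
      rw [hp, EE_add]
      have h1 := coeff_phi_mem (K := K) q a b c W hW hq hc N x.1 (by omega)
      have h2 := ih x.2 hlt (by omega)
      have h3 := (loc K W).mul_mem ((loc K W).mul_mem h1 h2) (algebraMap_mem_loc W p)
      convert h3 using 1
      ring
    · rw [zero_mul]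
      exact (loc K W).zero_mem

/-- The main estimate of the denominators. -/
lemma ratio_mem (q a b c : P) (W : Submonoid P) (hW : ∀ k : ℕ, 1 - q * q ^ k ∈ W)
    (hq : ∀ n : ℕ, 1 - algebraMap P K q * algebraMap P K q ^ n ≠ 0)
    (hc : ∀ n : ℕ, 1 - algebraMap P K c * algebraMap P K q ^ n ≠ 0) (n : ℕ) :
    EE (algebraMap P K q) (algebraMap P K c) (n + 1) (fun k => (n + 1) / (k + 1)) *
      PowerSeries.coeff n (phi (algebraMap P K q) (algebraMap P K a * algebraMap P K q)
        (algebraMap P K b) (algebraMap P K c * algebraMap P K q) *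
        (phi (algebraMap P K q) (algebraMap P K a) (algebraMap P K b) (algebraMap P K c))⁻¹) /
      (1 - algebraMap P K c) ∈ loc K W := by
  rw [PowerSeries.coeff_mul, Finset.mul_sum, Finset.sum_div]
  refine (loc K W).sum_mem ?_
  intro x hx
  have hx' := Finset.HasAntidiagonal.mem_antidiagonal.1 hx
  obtain ⟨p, hp⟩ := EE_le (K := K) q c (n + 1)
    (fun k => (if k < x.1 + 1 then 1 else 0) + x.2 / (k + 1)) (fun k => (n + 1) / (k + 1)) (by
      intro k
      rw [← hx']
      by_cases h : k < x.1 + 1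
      · simp only [h, if_true]
        have h1 : 1 + x.2 / (k + 1) = (x.2 + (k + 1)) / (k + 1) := by
          rw [Nat.add_div_right x.2 (show 0 < k + 1 by omega)]; omega
        rw [h1]
        exact Nat.div_le_div_right (by omega)
      · simp only [h, if_false, zero_add]
        exact Nat.div_le_div_right (by omega))
  rw [hp, EE_add, ← qPoch_eq_EE _ _ _ _ (by omega : x.1 + 1 ≤ n + 1), qPoch_succ']
  have h2 := coeff_inv_phi_mem (K := K) q a b c W hW hq hc (n + 1) x.2 (by omega)
  have hc0 : 1 - algebraMap P K c ≠ 0 := by simpa using hc 0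
  have hne : qPoch (algebraMap P K q) (algebraMap P K c * algebraMap P K q) x.1 ≠ 0 :=
    Finset.prod_ne_zero_iff.2 (fun j _ => by
      have := hc (j + 1); rw [pow_succ] at this
      intro h; apply this; rw [← h]; ring)
  have e1 : PowerSeries.coeff x.1 (phi (algebraMap P K q) (algebraMap P K a * algebraMap P K q)
        (algebraMap P K b) (algebraMap P K c * algebraMap P K q)) *
        qPoch (algebraMap P K q) (algebraMap P K c * algebraMap P K q) x.1 =
      qPoch (algebraMap P K q) (algebraMap P K (a * q)) x.1 *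
      qPoch (algebraMap P K q) (algebraMap P K b) x.1 *
      (qPoch (algebraMap P K q) (algebraMap P K q) x.1)⁻¹ := by
    simp only [phi, PowerSeries.coeff_mk, map_mul]
    rw [div_mul_eq_mul_div, mul_div_mul_right _ _ hne, div_eq_mul_inv]
  have h4 := (loc K W).mul_mem ((loc K W).mul_mem ((loc K W).mul_mem ((loc K W).mul_mem
    (qPoch_mem (K := K) q (a * q) W x.1) (qPoch_mem (K := K) q b W x.1))
    (inv_qPoch_mem (K := K) q W hW hq x.1)) h2) (algebraMap_mem_loc W p)
  rw [← e1] at h4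
  convert h4 using 1
  rw [div_eq_iff hc0]
  ring

end expand

/-! ### The specialisation to `ℤ[a, b, c, q]` -/

section final

/-- Divisibility by a constant is not affected by a factor `1 - s X`. -/
lemma poly_dvd {R : Type*} [CommRing R] (w s : R) (r : Polynomial R)
    (h : Polynomial.C w ∣ r * (1 - Polynomial.X * Polynomial.C s)) : Polynomial.C w ∣ r := by
  rw [Polynomial.C_dvd_iff_dvd_coeff] at h ⊢
  intro i
  induction i with
  | zero =>
    have h0 := h 0
    simpa [mul_sub, ← mul_assoc] using h0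
  | succ i ih =>
    have h1 := h (i + 1)
    rw [mul_sub, mul_one, Polynomial.coeff_sub, ← mul_assoc, Polynomial.coeff_mul_C,
      Polynomial.coeff_mul_X] at h1
    have h2 := dvd_add h1 (Dvd.dvd.mul_right ih s)
    simpa using h2

/-- The isomorphism from `ℤ[a, b, c, q]` to the polynomial ring in `c`. -/
noncomputable def iso : MvPolynomial (Fin 4) ℤ ≃ₐ[ℤ] Polynomial (MvPolynomial (Fin 3) ℤ) :=
  (MvPolynomial.renameEquiv ℤ (Equiv.swap (0 : Fin 4) 2)).trans (MvPolynomial.finSuccEquiv ℤ 3)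

lemma iso_c : iso (MvPolynomial.X 2) = Polynomial.X := by
  simp [iso, MvPolynomial.finSuccEquiv_X_zero]

lemma iso_q : iso (MvPolynomial.X 3) = Polynomial.C (MvPolynomial.X 2) := by
  have h : (Equiv.swap (0 : Fin 4) 2) 3 = 3 := by decide
  have h3 : (3 : Fin 4) = Fin.succ 2 := rfl
  simp only [iso, AlgEquiv.trans_apply, MvPolynomial.renameEquiv_apply, MvPolynomial.rename_X, h]
  rw [h3, MvPolynomial.finSuccEquiv_X_succ]

/-- Denominators `1 - q ^ j`. -/
noncomputable def Wm : Submonoid (MvPolynomial (Fin 4) ℤ) :=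
  Submonoid.closure (Set.range fun k : ℕ =>
    (1 - MvPolynomial.X 3 * MvPolynomial.X 3 ^ k : MvPolynomial (Fin 4) ℤ))

/-- Denominators `1 - c q ^ k`. -/
noncomputable def Um : Submonoid (MvPolynomial (Fin 4) ℤ) :=
  Submonoid.closure (Set.range fun k : ℕ =>
    (1 - MvPolynomial.X 2 * MvPolynomial.X 3 ^ k : MvPolynomial (Fin 4) ℤ))

lemma one_sub_ne (x : MvPolynomial (Fin 4) ℤ) (hx : MvPolynomial.constantCoeff x = 0) :
    1 - x ≠ 0 := by
  intro h
  have h2 := congrArg MvPolynomial.constantCoeff h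
  rw [map_sub, hx] at h2
  simp at h2

lemma Wm_ne (w : MvPolynomial (Fin 4) ℤ) (hw : w ∈ Wm) : w ≠ 0 := by
  unfold Wm at hw
  induction hw using Submonoid.closure_induction with
  | mem x hx =>
    obtain ⟨k, rfl⟩ := hx
    exact one_sub_ne _ (by simp)
  | one => exact one_ne_zero
  | mul x y _ _ hx hy => exact mul_ne_zero hx hy

lemma iso_W (w : MvPolynomial (Fin 4) ℤ) (hw : w ∈ Wm) : ∃ s, iso w = Polynomial.C s := by
  unfold Wm at hw
  induction hw using Submonoid.closure_induction with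
  | mem x hx =>
    obtain ⟨k, rfl⟩ := hx
    refine ⟨1 - MvPolynomial.X 2 * MvPolynomial.X 2 ^ k, ?_⟩
    simp only [map_sub, map_one, map_mul, map_pow, iso_q]
  | one => exact ⟨1, by simp⟩
  | mul x y _ _ hx hy =>
    obtain ⟨s, hs⟩ := hx
    obtain ⟨t, ht⟩ := hy
    exact ⟨s * t, by rw [map_mul, hs, ht, map_mul]⟩

lemma coprime_UW (w : MvPolynomial (Fin 4) ℤ) (hw : w ∈ Wm) (u : MvPolynomial (Fin 4) ℤ)
    (hu : u ∈ Um) : ∀ r : MvPolynomial (Fin 4) ℤ, w ∣ r * u → w ∣ r := by
  unfold Um at hu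
  induction hu using Submonoid.closure_induction with
  | mem x hx =>
    obtain ⟨k, rfl⟩ := hx
    intro r hr
    obtain ⟨s, hs⟩ := iso_W w hw
    have h1 := map_dvd iso hr
    simp only [map_mul, map_sub, map_one, map_pow, iso_q, iso_c] at h1
    rw [hs, ← map_pow] at h1
    have h2 := poly_dvd _ _ _ h1
    rw [← hs] at h2
    have h3 := map_dvd iso.symm h2
    simpa using h3
  | one => intro r hr; simpa using hr
  | mul x y _ _ hx hy =>
    intro r hr
    rw [← mul_assoc] at hr
    exact hx r (hy _ hr)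

/-- For every `n`, the rational function `D_n γ'_n / (1 - c)` is a polynomial with integer
coefficients in `a, b, c, q`. -/
theorem result : ∀ n : ℕ, ∃ P : MvPolynomial (Fin 4) ℤ,
    D n * gamma' n = (1 - c) * algebraMap (MvPolynomial (Fin 4) ℤ) QF P := by
  intro n
  have hinj : Function.Injective (algebraMap (MvPolynomial (Fin 4) ℤ) QF) :=
    IsFractionRing.injective _ _
  have hq : ∀ n : ℕ, 1 - algebraMap (MvPolynomial (Fin 4) ℤ) QF (MvPolynomial.X 3) *
      algebraMap (MvPolynomial (Fin 4) ℤ) QF (MvPolynomial.X 3) ^ n ≠ 0 := by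
    intro k h
    have h2 : algebraMap (MvPolynomial (Fin 4) ℤ) QF
        (1 - MvPolynomial.X 3 * MvPolynomial.X 3 ^ k) = algebraMap (MvPolynomial (Fin 4) ℤ) QF 0 := by
      simpa using h
    exact one_sub_ne _ (by simp) (hinj h2)
  have hc : ∀ n : ℕ, 1 - algebraMap (MvPolynomial (Fin 4) ℤ) QF (MvPolynomial.X 2) *
      algebraMap (MvPolynomial (Fin 4) ℤ) QF (MvPolynomial.X 3) ^ n ≠ 0 := by
    intro k h
    have h2 : algebraMap (MvPolynomial (Fin 4) ℤ) QF
        (1 - MvPolynomial.X 2 * MvPolynomial.X 3 ^ k) = algebraMap (MvPolynomial (Fin 4) ℤ) QF 0 := by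
      simpa using h
    exact one_sub_ne _ (by simp) (hinj h2)
  have hc0 : 1 - c ≠ 0 := by simpa [c] using hc 0
  have hWmem : ∀ k : ℕ, (1 - MvPolynomial.X 3 * MvPolynomial.X 3 ^ k : MvPolynomial (Fin 4) ℤ) ∈ Wm :=
    fun k => Submonoid.subset_closure ⟨k, rfl⟩
  have hUmem : ∀ k : ℕ, (1 - MvPolynomial.X 2 * MvPolynomial.X 3 ^ k : MvPolynomial (Fin 4) ℤ) ∈ Um :=
    fun k => Submonoid.subset_closure ⟨k, rfl⟩
  have hDU : D n ∈ loc QF Um := by
    unfold D
    refine (loc QF Um).prod_mem ?_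
    intro k _
    refine (loc QF Um).pow_mem ?_ _
    have h := algebraMap_mem_loc (K := QF) Um
      (1 - MvPolynomial.X 2 * MvPolynomial.X 3 ^ k : MvPolynomial (Fin 4) ℤ)
    simpa [c, q] using h
  have hinvU : (1 - c)⁻¹ ∈ loc QF Um := by
    have h := inv_mem_loc (K := QF) Um (hUmem 0) (by simpa [c] using hc0)
    simpa [c] using h
  have hgU : gamma' n ∈ loc QF Um := by
    have h := coeff_ratio_mem (K := QF) (MvPolynomial.X 3) (MvPolynomial.X 2) Um hUmem hq hc n
      (MvPolynomial.X 0) (MvPolynomial.X 1) 0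
    simpa [gamma', a, b, c, q] using h
  have hU : D n * gamma' n / (1 - c) ∈ loc QF Um := by
    rw [div_eq_mul_inv]
    exact (loc QF Um).mul_mem ((loc QF Um).mul_mem hDU hgU) hinvU
  have hW : D n * gamma' n / (1 - c) ∈ loc QF Wm := by
    exact ratio_mem (K := QF) (MvPolynomial.X 3) (MvPolynomial.X 0) (MvPolynomial.X 1)
      (MvPolynomial.X 2) Wm hWmem hq hc n
  obtain ⟨p, hp⟩ := mem_range_of_mem_loc hinj Um Wm Wm_ne
    (fun w hw u hu r hr => coprime_UW w hw u hu r hr) hU hW
  refine ⟨p, ?_⟩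
  rw [← hp, mul_div_cancel₀ _ hc0]

end final

end Pool.Agent.Results.MP_89b4a2_co.Full
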